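import Mathlib
import Pool.Prelude.Def_F_c31e40fa
import Pool.Agent.H548R3.MB.Crit

set_option autoImplicit false

open Filter Metric Set

namespace Pool.Agent.Results.MP_af9036_an.CriticalOrbitEstimate

/-- The map `z ↦ z ^ d + c`. -/
def f (d : ℕ) (c : ℂ) : ℂ → ℂ := fun z => z ^ d + c

/-- The critical orbit. -/
def z (d k : ℕ) (c : ℂ) : ℂ := (f d c)^[k] 0

/-- `f d c` has an attracting cycle. -/
def Hyp (d : ℕ) (c : ℂ) : Prop := ∃ m x, N62a1eb23.IsAttractingCycle (f d c) m x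

/-- The critical point `0` is periodic under `f d c` with a period at most `N`. -/
def Centre (d N : ℕ) (c : ℂ) : Prop := ∃ p, 1 ≤ p ∧ p ≤ N ∧ z d p c = 0

theorem hyp_of_centre {d : ℕ} (hd : 2 ≤ d) {N : ℕ} {c : ℂ} (h : Centre d N c) : Hyp d c := by
  obtain ⟨p, hp, -, h⟩ := h
  exact ⟨p, 0, Pool.Agent.H548R3.MB.att_of_centre hd hp h⟩

/-- The position `z d k c` of the critical orbit and its derivative with respect to the parameter
control the distance of `c` to the hyperbolic parameters, for every degree and every `k`. -/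
theorem result (d : ℕ) (hd : 2 ≤ d) :
    -- (1) the distance to all hyperbolic parameters, explicit constants
    (∀ c ∈ N62a1eb23.multibrotSet d, ∀ r : ℝ, 0 < r → (∀ c' ∈ ball c r, ¬ Hyp d c') →
      ∀ k : ℕ, 1 ≤ k → r * ((d - 1 : ℕ) : ℝ) * ‖deriv (z d k) c‖ ≤
        2 * ‖z d k c‖ * Real.log (2 / ‖z d k c‖ ^ (d - 1))) ∧
    -- (2) the distance to the superattracting parameters of period at most `k + 1`
    (∀ ε : ℝ, 0 < ε → ∃ K : ℝ, 0 < K ∧ ∀ c ∈ N62a1eb23.multibrotSet d, ∀ k : ℕ, 1 ≤ k →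
      ∃ c' : ℂ, Centre d (k + 1) c' ∧ Hyp d c' ∧ ∀ j : ℕ, 1 ≤ j → j ≤ k →
        ‖c' - c‖ * ‖deriv (z d j) c‖ ≤
          (1 + ε) * (2 * ‖z d j c‖ * Real.log (K / ‖z d j c‖))) ∧
    -- (3) the same for holomorphic discs
    (∀ ε : ℝ, 0 < ε → ∃ K : ℝ, 0 < K ∧ ∀ k : ℕ, 1 ≤ k → ∀ γ : ℂ → ℂ,
      DifferentiableOn ℂ γ (ball 0 1) → γ 0 ∈ N62a1eb23.multibrotSet d →
      (∀ t ∈ ball (0 : ℂ) 1, ¬ Centre d (k + 1) (γ t)) →
        ‖deriv (fun t => z d k (γ t)) 0‖ ≤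
          (1 + ε) * (2 * ‖z d k (γ 0)‖ * Real.log (K / ‖z d k (γ 0)‖))) ∧
    -- (4) exponential density of the hyperbolic parameters at expanding critical orbits
    (∀ l : ℝ, 2 < l →
      (∀ c ∈ N62a1eb23.multibrotSet d, ∀ k : ℕ,
        (∀ j, 1 ≤ j → j ≤ k → l ≤ ‖deriv (f d c) (z d j c)‖) →
        ∀ r : ℝ, 0 < r → (∀ c' ∈ ball c r, ¬ Hyp d c') →
          r ≤ 2 * (l - 1) / ((l - 2) * l ^ k)) ∧
      ∃ K : ℝ, ∀ c ∈ N62a1eb23.multibrotSet d, ∀ k : ℕ,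
        (∀ j, 1 ≤ j → j ≤ k → l ≤ ‖deriv (f d c) (z d j c)‖) →
        ∃ c' : ℂ, Centre d (k + 2) c' ∧ Hyp d c' ∧ ‖c' - c‖ ≤ K / l ^ (k + 2)) := by
  have hder : ∀ (c w : ℂ), ‖deriv (f d c) w‖ = d * ‖w‖ ^ (d - 1) := by
    intro c w
    have h1 : deriv (f d c) w = d * w ^ (d - 1) := ((hasDerivAt_pow d w).add_const c).deriv
    rw [h1, norm_mul, norm_pow, Complex.norm_natCast]
  refine ⟨?_, ?_, ?_, ?_⟩
  · intro c hc r hr hno k hk
    exact Pool.Agent.H548R3.MB.hyp_ineq hd hc hr hno hk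
  · intro ε hε
    obtain ⟨m, hm, hmk⟩ := Pool.Agent.H548R3.MB.exists_k' hε
    have hM := Pool.Agent.H548R3.MB.one_le_MM d m
    refine ⟨Pool.Agent.H548R3.MB.MM d m + 2, by linarith, ?_⟩
    intro c hc k hk
    obtain ⟨c', hc', h⟩ := Pool.Agent.H548R3.MB.nearest_crit hd hc hk
    refine ⟨c', hc', hyp_of_centre hd hc', ?_⟩
    intro j hj hjk
    exact Pool.Agent.H548R3.MB.scale hε (by positivity) hmk (h m hm j hj hjk)
  · intro ε hε
    obtain ⟨m, hm, hmk⟩ := Pool.Agent.H548R3.MB.exists_k' hε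
    have hM := Pool.Agent.H548R3.MB.one_le_MM d m
    refine ⟨Pool.Agent.H548R3.MB.MM d m, by linarith, ?_⟩
    intro k hk γ hγ hc hno
    exact Pool.Agent.H548R3.MB.scale hε (norm_nonneg _) hmk
      (Pool.Agent.H548R3.MB.disc_crit hd hk hγ hc hno hm)
  · intro l hl
    refine ⟨?_, ?_⟩
    · intro c hc k h r hr hno
      exact Pool.Agent.H548R3.MB.expanding_hyp hd hl hc hr hno
        (fun j h1 h2 => (h j h1 h2).trans_eq (hder _ _))
    · obtain ⟨K, hK⟩ := Pool.Agent.H548R3.MB.expanding hd hl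
      refine ⟨K, ?_⟩
      intro c hc k h
      obtain ⟨c', hc', h1⟩ := hK c hc k (fun j h1 h2 => (h j h1 h2).trans_eq (hder _ _))
      exact ⟨c', hc', hyp_of_centre hd hc', h1⟩

end Pool.Agent.Results.MP_af9036_an.CriticalOrbitEstimate
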